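import Pool.Agent.Helper83.Nearby

/-!
# The planar `n`-body problem: generic unboundedness or locally uniform boundedness

Let `S` be any set of times, for instance `ℝ` or `[0, ∞)`.  An initial condition is unbounded (in `S`)
if the mutual distances of its solution take arbitrarily large values at times in `S`.  There is an
open set `Ω` of initial conditions on which the mutual distances at all times in `S` are bounded
locally uniformly with respect to the initial condition, and the unbounded initial conditions are a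
`G_δ` set which is dense outside of `Ω`, that is, in every open set disjoint from `Ω`.

In particular, if some (relative periodic) solution has a neighbourhood of initial conditions without
unbounded solutions, the negation of the statement of the problem, then there are open sets of
initial conditions arbitrarily near it, in fact dense near it, on each of which all the mutual
distances of all the solutions have one common bound.
-/

set_option autoImplicit false

namespace Pool.Agent.Results.MP_6e7c44_mp.GenericUnboundedness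

open Set Filter Topology

/-- Phase points of `n` bodies in the plane `ℂ`: positions and velocities (product topology). -/
abbrev Ph (n : ℕ) := (Fin n → ℂ) × (Fin n → ℂ)

/-- Newtonian acceleration of body `a`: `∑_{b ≠ a} m_b (q_b - q_a) / |q_b - q_a|^3`. -/
noncomputable def acc {n : ℕ} (m : Fin n → ℝ) (q : Fin n → ℂ) (a : Fin n) : ℂ :=
  ∑ b ∈ Finset.univ.erase a, ((m b / ‖q b - q a‖ ^ 3 : ℝ) : ℂ) * (q b - q a)

/-- The phase space: no collisions. -/
def phaseSpace (n : ℕ) : Set (Ph n) := {z | ∀ a b, a ≠ b → z.1 a ≠ z.1 b}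

/-- `x = (q, v)` is a solution of Newton's equations on the time set `J`. -/
def IsSol {n : ℕ} (m : Fin n → ℝ) (J : Set ℝ) (x : ℝ → Ph n) : Prop :=
  ∀ t ∈ J, x t ∈ phaseSpace n ∧ HasDerivWithinAt x ((x t).2, acc m (x t).1) J t

/-- The solution with the initial condition `z` exists until a time `T ∈ S` (of any sign), at which
some mutual distance is greater than `R`. -/
def Reaches {n : ℕ} (m : Fin n → ℝ) (S : Set ℝ) (R : ℝ) (z : Ph n) : Prop :=
  ∃ T ∈ S, ∃ x : ℝ → Ph n, IsSol m (uIcc 0 T) x ∧ x 0 = z ∧ ∃ a b, R < ‖(x T).1 a - (x T).1 b‖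

/-- The solution with the initial condition `z` is unbounded: its mutual distances take arbitrarily
large values at times in `S`. -/
def Unbounded {n : ℕ} (m : Fin n → ℝ) (S : Set ℝ) (z : Ph n) : Prop := ∀ R : ℝ, Reaches m S R z

/-- Reversal of the velocities. -/
def rev {n : ℕ} (z : Ph n) : Ph n := (z.1, -z.2)

theorem rev_rev {n : ℕ} (z : Ph n) : rev (rev z) = z := by
  simp [rev]

theorem dist_rev {n : ℕ} (z w : Ph n) : dist (rev z) (rev w) = dist z w := by
  simp [rev, Prod.dist_eq]

/-- Time reversal. -/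
theorem IsSol.reverse {n : ℕ} {m : Fin n → ℝ} {J J' : Set ℝ} {x : ℝ → Ph n} (hx : IsSol m J x)
    (hJ : MapsTo (fun t : ℝ => -t) J' J) : IsSol m J' (fun t => rev (x (-t))) := by
  intro t ht
  obtain ⟨h1, h2⟩ := hx (-t) (hJ ht)
  refine ⟨h1, ?_⟩
  have h3 : HasDerivWithinAt (fun t : ℝ => -t) (-1 : ℝ) J' t := (hasDerivAt_neg t).hasDerivWithinAt
  have h4 := HasDerivWithinAt.scomp t h2 h3 hJ
  have h5 : HasDerivWithinAt (fun t => x (-t)) ((-1 : ℝ) • ((x (-t)).2, acc m (x (-t)).1)) J' t := h4
  let L : Ph n →L[ℝ] Ph n :=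
    (ContinuousLinearMap.fst ℝ (Fin n → ℂ) (Fin n → ℂ)).prod
      (-(ContinuousLinearMap.snd ℝ (Fin n → ℂ) (Fin n → ℂ)))
  have h6 := L.hasFDerivAt.comp_hasDerivWithinAt t h5
  have e : L ((-1 : ℝ) • ((x (-t)).2, acc m (x (-t)).1)) =
      ((rev (x (-t))).2, acc m (rev (x (-t))).1) := by
    simp [L, rev]
  rw [e] at h6
  exact h6

theorem isOpen_reaches {n : ℕ} (m : Fin n → ℝ) (S : Set ℝ) (R : ℝ) :
    IsOpen {z | Reaches m S R z} := by
  rw [Metric.isOpen_iff]
  rintro z ⟨T, hTS, x, hx, rfl, a, b, hab⟩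
  have hcont : Continuous (fun w : Ph n => ‖w.1 a - w.1 b‖) := by fun_prop
  obtain ⟨ε, hε, hball⟩ := Metric.isOpen_iff.1 (isOpen_lt continuous_const hcont) (x T) hab
  rcases le_total 0 T with hT | hT
  · rw [uIcc_of_le hT] at hx
    obtain ⟨δ, hδ, h⟩ := Pool.Agent.Helper83.Nearby.nearby (m := m) hT hx hε
    refine ⟨δ, hδ, fun z' hz' => ?_⟩
    obtain ⟨y, hy, hy0, hyT⟩ := h z' hz'
    refine ⟨T, hTS, y, ?_, hy0, a, b, hball (Metric.mem_ball.2 hyT)⟩
    rw [uIcc_of_le hT]
    exact hy
  · rw [uIcc_of_ge hT] at hx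
    have hT' : 0 ≤ -T := by linarith
    have hx' : IsSol m (Icc 0 (-T)) (fun t => rev (x (-t))) := by
      refine hx.reverse fun t ht => ?_
      exact ⟨by linarith [ht.2], by linarith [ht.1]⟩
    obtain ⟨δ, hδ, h⟩ := Pool.Agent.Helper83.Nearby.nearby (m := m) hT' hx' hε
    refine ⟨δ, hδ, fun z' hz' => ?_⟩
    obtain ⟨y, hy, hy0, hyT⟩ := h (rev z') (by
      simp only [neg_zero]
      rw [dist_rev]
      exact hz')
    have hy' : IsSol m (Icc T 0) (fun t => rev (y (-t))) := by
      have hy1 : IsSol m (Icc 0 (-T)) y := hy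
      refine hy1.reverse fun t ht => ?_
      exact ⟨by linarith [ht.2], by linarith [ht.1]⟩
    refine ⟨T, hTS, fun t => rev (y (-t)), ?_, ?_, a, b, ?_⟩
    · rw [uIcc_of_ge hT]
      exact hy'
    · simp only [neg_zero]
      rw [hy0, rev_rev]
    · refine hball (Metric.mem_ball.2 ?_)
      have e : dist (rev (y (-T))) (x T) = dist (y (-T)) (rev (x T)) := by
        rw [← dist_rev, rev_rev]
      simp only at hyT ⊢
      rw [e]
      simpa using hyT

theorem Reaches.mono {n : ℕ} {m : Fin n → ℝ} {S : Set ℝ} {R R' : ℝ} (h : R' ≤ R) {z : Ph n}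
    (hz : Reaches m S R z) : Reaches m S R' z := by
  obtain ⟨T, hTS, x, hx, h0, a, b, hab⟩ := hz
  exact ⟨T, hTS, x, hx, h0, a, b, h.trans_lt hab⟩

theorem Reaches.mem {n : ℕ} {m : Fin n → ℝ} {S : Set ℝ} {R : ℝ} {z : Ph n}
    (hz : Reaches m S R z) : z ∈ phaseSpace n := by
  obtain ⟨T, hTS, x, hx, rfl, a, b, hab⟩ := hz
  exact (hx 0 left_mem_uIcc).1

/-- **Generic unboundedness or locally uniform boundedness.**  For all masses and every set `S` of
times there is an open set `Ω` of initial conditions such that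

1. every `z ∈ Ω` has a neighbourhood `W` and an `R` such that all mutual distances of all solutions
   with initial conditions in `W` are at most `R` at all times `T ∈ S` of their existence;
2. the set of unbounded initial conditions is a `G_δ`;
3. the unbounded initial conditions are dense in every open set of the phase space disjoint from `Ω`;
4. if an open set `N` contains no unbounded initial condition then `N ∩ Ω` is dense in `N`. -/
theorem result {n : ℕ} (m : Fin n → ℝ) (S : Set ℝ) :
    ∃ Ω : Set (Ph n), IsOpen Ω ∧ Ω ⊆ phaseSpace n ∧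
      (∀ z ∈ Ω, ∃ W : Set (Ph n), IsOpen W ∧ z ∈ W ∧ ∃ R : ℝ, ∀ T ∈ S, ∀ x : ℝ → Ph n,
        IsSol m (uIcc 0 T) x → x 0 ∈ W → ∀ a b, ‖(x T).1 a - (x T).1 b‖ ≤ R) ∧
      IsGδ {z | Unbounded m S z} ∧
      (∀ V : Set (Ph n), IsOpen V → V ⊆ phaseSpace n → Disjoint V Ω →
        V ⊆ closure (V ∩ {z | Unbounded m S z})) ∧
      (∀ N : Set (Ph n), IsOpen N → N ⊆ phaseSpace n → (∀ z ∈ N, ¬ Unbounded m S z) →
        N ⊆ closure (N ∩ Ω)) := by
  classical
  set Ω : Set (Ph n) := {z | z ∈ phaseSpace n ∧ ∃ W : Set (Ph n), IsOpen W ∧ z ∈ W ∧ ∃ R : ℝ,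
    ∀ z' ∈ W, ¬ Reaches m S R z'} with hΩ
  have hPS : IsOpen (phaseSpace n) := Pool.Agent.Helper83.Nearby.isOpen_noColl
  have hdense : ∀ V : Set (Ph n), IsOpen V → V ⊆ phaseSpace n → Disjoint V Ω →
      V ⊆ closure (V ∩ {z | Unbounded m S z}) := by
    intro V hV hVP hdisj
    have hDo : ∀ j : ℕ, IsOpen ({z | Reaches m S j z} ∪ (closure V)ᶜ) := fun j =>
      (isOpen_reaches m S j).union isClosed_closure.isOpen_compl
    have hDd : ∀ j : ℕ, Dense ({z | Reaches m S j z} ∪ (closure V)ᶜ) := by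
      intro j
      rw [dense_iff_inter_open]
      intro O hO hOne
      by_cases hOV : (O ∩ V).Nonempty
      · obtain ⟨w, hwO, hwV⟩ := hOV
        by_contra hcon
        apply disjoint_left.1 hdisj hwV
        refine ⟨hVP hwV, O ∩ V, hO.inter hV, ⟨hwO, hwV⟩, j, fun z' hz' hr => ?_⟩
        exact hcon ⟨z', hz'.1, Or.inl hr⟩
      · obtain ⟨w, hw⟩ := hOne
        refine ⟨w, hw, Or.inr fun hwc => hOV ?_⟩
        exact mem_closure_iff.1 hwc O hO hw
    have hD := dense_iInter_of_isOpen_nat hDo hDd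
    intro z hz
    rw [mem_closure_iff]
    intro O hO hzO
    obtain ⟨w, hw, hwD⟩ := dense_iff_inter_open.1 hD (O ∩ V) (hO.inter hV) ⟨z, hzO, hz⟩
    refine ⟨w, hw.1, hw.2, fun R => ?_⟩
    obtain ⟨j, hj⟩ := exists_nat_ge R
    rcases mem_iInter.1 hwD j with h | h
    · exact h.mono hj
    · exact absurd (subset_closure hw.2) h
  refine ⟨Ω, ?_, fun z hz => hz.1, ?_, ?_, hdense, ?_⟩
  · rw [isOpen_iff_mem_nhds]
    rintro z ⟨hz, W, hW, hzW, R, h⟩
    refine mem_of_superset ((hPS.inter hW).mem_nhds ⟨hz, hzW⟩) fun w hw => ?_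
    exact ⟨hw.1, W, hW, hw.2, R, h⟩
  · rintro z ⟨hz, W, hW, hzW, R, h⟩
    refine ⟨W, hW, hzW, R, fun T hT x hx hxW a b => ?_⟩
    by_contra hcon
    exact h (x 0) hxW ⟨T, hT, x, hx, rfl, a, b, not_le.1 hcon⟩
  · have e : {z : Ph n | Unbounded m S z} = ⋂ j : ℕ, {z | Reaches m S j z} := by
      ext z
      simp only [mem_ofPred_eq, mem_iInter]
      constructor
      · intro h j
        exact h j
      · intro h R
        obtain ⟨j, hj⟩ := exists_nat_ge R
        exact (h j).mono hj
    rw [e]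
    exact IsGδ.iInter_of_isOpen fun j => isOpen_reaches m S j
  · intro N hN hNP hb z hz
    rw [mem_closure_iff]
    intro O hO hzO
    by_contra hcon
    have hdisj : Disjoint (O ∩ N) Ω := by
      rw [disjoint_left]
      intro w hw hwΩ
      exact hcon ⟨w, hw.1, hw.2, hwΩ⟩
    have h1 := hdense (O ∩ N) (hO.inter hN) (fun w hw => hNP hw.2) hdisj ⟨hzO, hz⟩
    obtain ⟨w, _, hw, hwU⟩ := mem_closure_iff.1 h1 univ isOpen_univ (mem_univ z)
    exact hb w hw.2 hwU

end Pool.Agent.Results.MP_6e7c44_mp.GenericUnboundedness
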